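import Pool.Agent.U737.FL.Null
import Pool.Agent.TH431.GQ.Lin

/-!
# Numbers of flags
-/

set_option autoImplicit false

namespace Pool.Agent.U737.FL

open Module (finrank)

variable {F V : Type} [Field F] [AddCommGroup V] [Module F V] [FiniteDimensional F V] [Finite F]

/-- The number of the flags opposite to a given flag is at least `q ^ (2 m - 3)`. -/
theorem card_opp {p₀ h₀ : Submodule F V} (hfl : IsFlag (p₀, h₀)) :
    Nat.card F ^ (2 * finrank F V - 3) ≤
      Nat.card {c : Submodule F V × Submodule F V // IsFlag c ∧ Opp p₀ h₀ c.1 c.2} := by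
  have hVf : Finite V := Module.finite_of_finite F
  have hSub : Finite (Submodule F V) :=
    Finite.of_injective (fun W : Submodule F V => (W : Set V)) SetLike.coe_injective
  have hp₀ : finrank F p₀ = 1 := hfl.1
  have hh₀ : finrank F h₀ + 1 = finrank F V := hfl.2.1
  have hle : p₀ ≤ h₀ := hfl.2.2
  have hle2 := Submodule.finrank_mono hle
  obtain ⟨q₀, hq₀⟩ : ∃ q₀ : Submodule F h₀, q₀ = p₀.comap h₀.subtype := ⟨_, rfl⟩
  have hq1 : finrank F q₀ = 1 := by
    rw [hq₀, ← hp₀]
    exact (Submodule.comapSubtypeEquivOfLe hle).finrank_eq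
  have h1 := Pool.Agent.TH431.GQ.card_compl h₀ 1 hh₀
  have h2 := Pool.Agent.TH431.GQ.card_compl q₀ (finrank F h₀ - 1) (by omega)
  have h3 : Nat.card F ^ (2 * finrank F V - 3) =
      Nat.card F ^ (1 * (finrank F V - 1)) * Nat.card F ^ ((finrank F h₀ - 1) *
        (finrank F h₀ - (finrank F h₀ - 1))) := by
    rw [← pow_add]
    congr 1
    have h4 : finrank F h₀ - (finrank F h₀ - 1) = 1 := by omega
    rw [h4]
    omega
  rw [h3]
  refine (Nat.mul_le_mul h1 h2).trans ?_
  rw [← Nat.card_prod]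
  have hK : ∀ K : Submodule F h₀, (K.map h₀.subtype) ≤ h₀ := fun K => Submodule.map_subtype_le h₀ K
  have hmod : ∀ (a : {W : Submodule F V // IsCompl h₀ W}) (K : Submodule F h₀),
      (a.1 ⊔ K.map h₀.subtype) ⊓ h₀ = K.map h₀.subtype := by
    intro a K
    rw [sup_comm, sup_inf_assoc_of_le _ (hK K), inf_comm, a.2.inf_eq_bot, sup_bot_eq]
  refine Nat.card_le_card_of_injective
    (fun a : {W : Submodule F V // IsCompl h₀ W} × {K : Submodule F h₀ // IsCompl q₀ K} =>
      (⟨(a.1.1, a.1.1 ⊔ a.2.1.map h₀.subtype), ?_, ?_⟩ :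
        {c : Submodule F V × Submodule F V // IsFlag c ∧ Opp p₀ h₀ c.1 c.2})) ?_
  · obtain ⟨⟨W, hW⟩, ⟨K, hK'⟩⟩ := a
    have h5 := Submodule.finrank_add_eq_of_isCompl hW
    have h6 := Submodule.finrank_add_eq_of_isCompl hK'
    have h7 : finrank F (K.map h₀.subtype) = finrank F K :=
      Submodule.finrank_map_subtype_eq h₀ K
    have h8 := Submodule.finrank_sup_add_finrank_inf_eq W (K.map h₀.subtype)
    have h9 : W ⊓ K.map h₀.subtype = ⊥ := by
      rw [eq_bot_iff, ← hW.symm.inf_eq_bot]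
      exact inf_le_inf_left _ (hK K)
    rw [h9, finrank_bot] at h8
    refine ⟨?_, ?_, le_sup_left⟩
    · show finrank F W = 1
      omega
    · show finrank F (W ⊔ K.map h₀.subtype : Submodule F V) + 1 = _
      omega
  · obtain ⟨⟨W, hW⟩, ⟨K, hK'⟩⟩ := a
    constructor
    · intro h4
      have h5 : W ⊓ h₀ = W := inf_eq_left.2 h4
      have h6 : W = ⊥ := by rw [← h5, hW.symm.inf_eq_bot]
      have h7 := Submodule.finrank_add_eq_of_isCompl hW
      rw [h6, finrank_bot] at h7
      omega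
    · intro h4
      have h5 : p₀ ≤ K.map h₀.subtype := by
        rw [← hmod ⟨W, hW⟩ K]
        exact le_inf h4 hle
      have h6 : q₀ ≤ K := by
        rw [hq₀]
        intro v hv
        obtain ⟨w, hw, hwv⟩ := h5 hv
        have : w = v := Subtype.ext hwv
        rwa [← this]
      have h7 : q₀ = ⊥ := by
        rw [← hK'.inf_eq_bot]
        exact (inf_eq_left.2 h6).symm
      rw [h7, finrank_bot] at hq1
      omega
  · rintro ⟨⟨W, hW⟩, ⟨K, hK'⟩⟩ ⟨⟨W', hW'⟩, ⟨K', hK''⟩⟩ h
    have h4 := congrArg Subtype.val h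
    have h5 : W = W' := congrArg Prod.fst h4
    have h6 : W ⊔ K.map h₀.subtype = W' ⊔ K'.map h₀.subtype := congrArg Prod.snd h4
    subst h5
    have h7 : K.map h₀.subtype = K'.map h₀.subtype := by
      rw [← hmod ⟨W, hW⟩ K, ← hmod ⟨W, hW⟩ K']
      show (W ⊔ K.map h₀.subtype) ⊓ h₀ = (W ⊔ K'.map h₀.subtype) ⊓ h₀
      rw [h6]
    have h8 : K = K' := Submodule.map_injective_of_injective h₀.subtype_injective h7
    subst h8
    rfl

/-- The number of all flags. -/
theorem card_flags (hV : 2 ≤ finrank F V) :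
    (Nat.card F - 1) ^ 2 * Nat.card {c : Submodule F V × Submodule F V // IsFlag c} ≤
      Nat.card F ^ (2 * finrank F V - 1) := by
  classical
  have hVf : Finite V := Module.finite_of_finite F
  have hSub : Finite (Submodule F V) :=
    Finite.of_injective (fun W : Submodule F V => (W : Set V)) SetLike.coe_injective
  have hDf : Finite (V →ₗ[F] F) :=
    Finite.of_injective (fun g : V →ₗ[F] F => (g : V → F)) DFunLike.coe_injective
  -- representatives
  have hrep : ∀ c : {c : Submodule F V × Submodule F V // IsFlag c},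
      ∃ (v : V) (ℓ : V →ₗ[F] F), v ≠ 0 ∧ ℓ ≠ 0 ∧ c.1.1 = F ∙ v ∧ c.1.2 = LinearMap.ker ℓ := by
    rintro ⟨⟨p, h⟩, h1, h2, h3⟩
    have h1' : finrank F p = 1 := h1
    have h2' : finrank F h + 1 = finrank F V := h2
    have hp0 : p ≠ ⊥ := by
      rintro rfl
      rw [finrank_bot] at h1'
      omega
    obtain ⟨v, hv, hv0⟩ := Submodule.exists_mem_ne_zero_of_ne_bot hp0
    have hh : h < ⊤ := by
      rw [lt_top_iff_ne_top]
      rintro rfl
      rw [finrank_top] at h2'
      omega
    obtain ⟨x, -, hx⟩ := SetLike.exists_of_lt hh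
    obtain ⟨ℓ, hℓ, hℓx⟩ := exists_func h2' hx
    refine ⟨v, ℓ, hv0, ?_, point_eq h1' hv hv0, hℓ.symm⟩
    rintro rfl
    rw [LinearMap.zero_apply] at hℓx
    exact zero_ne_one hℓx
  choose v ℓ hv0 hℓ0 hv hℓ using hrep
  have hℓv : ∀ c, ℓ c (v c) = 0 := by
    intro c
    have h1 : v c ∈ c.1.2 := c.2.2.2 (by rw [hv c]; exact Submodule.mem_span_singleton_self _)
    rw [hℓ c] at h1
    exact h1
  have hcard : Nat.card ({c : Submodule F V × Submodule F V // IsFlag c} × (Fˣ × Fˣ)) ≤
      Nat.card (Σ w : {w : V // w ≠ 0}, LinearMap.ker (LinearMap.applyₗ (R := F) (M₂ := F) w.1)) := by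
    refine Nat.card_le_card_of_injective (fun a =>
      ⟨⟨(a.2.1 : F) • v a.1, smul_ne_zero a.2.1.ne_zero (hv0 a.1)⟩,
        ⟨(a.2.2 : F) • ℓ a.1, ?_⟩⟩) ?_
    · rw [LinearMap.mem_ker]
      show ((a.2.2 : F) • ℓ a.1) ((a.2.1 : F) • v a.1) = 0
      rw [map_smul, LinearMap.smul_apply, hℓv, smul_zero, smul_zero]
    · rintro ⟨c, a, b⟩ ⟨c', a', b'⟩ h
      have h1 : (a : F) • v c = (a' : F) • v c' :=
        congrArg (fun z : (Σ w : {w : V // w ≠ 0},
          LinearMap.ker (LinearMap.applyₗ (R := F) (M₂ := F) w.1)) => z.1.1) h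
      have h2 : (b : F) • ℓ c = (b' : F) • ℓ c' :=
        congrArg (fun z : (Σ w : {w : V // w ≠ 0},
          LinearMap.ker (LinearMap.applyₗ (R := F) (M₂ := F) w.1)) => z.2.1) h
      have h3 : c.1.1 = c'.1.1 := by
        rw [hv c, hv c', ← Submodule.span_singleton_smul_eq (a.isUnit) (v c),
          ← Submodule.span_singleton_smul_eq (a'.isUnit) (v c'), h1]
      have h4 : c.1.2 = c'.1.2 := by
        rw [hℓ c, hℓ c', ← LinearMap.ker_smul (ℓ c) (b : F) b.ne_zero,
          ← LinearMap.ker_smul (ℓ c') (b' : F) b'.ne_zero, h2]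
      have h5 : c = c' := Subtype.ext (Prod.ext h3 h4)
      subst h5
      have h6 : a = a' := Units.ext (smul_left_injective F (hv0 c) h1)
      have h7 : b = b' := Units.ext (smul_left_injective F (hℓ0 c) h2)
      rw [h6, h7]
  have hU : Nat.card Fˣ = Nat.card F - 1 := by
    rw [Nat.card_units]
  have hker : ∀ w : {w : V // w ≠ 0},
      Nat.card (LinearMap.ker (LinearMap.applyₗ (R := F) (M₂ := F) w.1)) =
        Nat.card F ^ (finrank F V - 1) := by
    intro w
    rw [Module.natCard_eq_pow_finrank (K := F)]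
    congr 1
    obtain ⟨ℓ', h1⟩ : ∃ ℓ' : V →ₗ[F] F, ℓ' w.1 ≠ 0 := by
      have hw : w.1 ∉ (⊥ : Submodule F V) := by
        rw [Submodule.mem_bot]
        exact w.2
      obtain ⟨ℓ', h1, -⟩ := Submodule.exists_le_ker_of_notMem hw
      exact ⟨ℓ', h1⟩
    have h2 := LinearMap.finrank_range_add_finrank_ker
      (LinearMap.applyₗ (R := F) (M₂ := F) w.1)
    have h3 : LinearMap.range (LinearMap.applyₗ (R := F) (M₂ := F) w.1) = ⊤ := by
      rw [LinearMap.range_eq_top]
      refine LinearMap.surjective (fun h0 => h1 ?_)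
      exact LinearMap.congr_fun h0 ℓ'
    rw [h3, finrank_top, Module.finrank_self, Module.finrank_linearMap, Module.finrank_self] at h2
    omega
  have hV1 : Nat.card {w : V // w ≠ 0} ≤ Nat.card F ^ finrank F V := by
    rw [← Module.natCard_eq_pow_finrank (K := F) (V := V)]
    exact Nat.card_le_card_of_injective Subtype.val Subtype.val_injective
  have hfinU : Fintype {w : V // w ≠ 0} := Fintype.ofFinite _
  rw [Nat.card_prod, Nat.card_prod, hU, Nat.card_sigma, Finset.sum_congr rfl fun w _ => hker w,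
    Finset.sum_const, Finset.card_univ, smul_eq_mul, ← Nat.card_eq_fintype_card] at hcard
  calc (Nat.card F - 1) ^ 2 * Nat.card {c : Submodule F V × Submodule F V // IsFlag c}
      = Nat.card {c : Submodule F V × Submodule F V // IsFlag c} *
        ((Nat.card F - 1) * (Nat.card F - 1)) := by ring
    _ ≤ Nat.card {w : V // w ≠ 0} * Nat.card F ^ (finrank F V - 1) := hcard
    _ ≤ Nat.card F ^ finrank F V * Nat.card F ^ (finrank F V - 1) :=
      Nat.mul_le_mul_right _ hV1
    _ = Nat.card F ^ (2 * finrank F V - 1) := by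
      rw [← pow_add]
      congr 1
      omega

end Pool.Agent.U737.FL
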