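import Pool.Agent.U737.FL.Main
import Pool.Agent.U737.FL.Count

/-!
# Point-hyperplane flags: the bound
-/

set_option autoImplicit false

namespace Pool.Agent.U737.FL

open Finset
open Module (finrank)
open scoped Pointwise
open Pool.Agent.R570.PS

variable {F V : Type} [Field F] [AddCommGroup V] [Module F V] [FiniteDimensional F V] [Finite F]

theorem final (hV : 2 ≤ finrank F V) {X : Type} [Finite X] [DecidableEq X]
    [MulAction (V ≃ₗ[F] V) X] (π : X → Submodule F V × Submodule F V) (hflag : ∀ x, IsFlag (π x))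
    (hequi : ∀ (g : V ≃ₗ[F] V) x,
      π (g • x) = ((π x).1.map (g : V →ₗ[F] V), (π x).2.map (g : V →ₗ[F] V)))
    (f : (X → Bool) → Bool) (hmono : Monotone f) (hne : ∃ x y, f x ≠ f y)
    (hinv : ∀ (g : V ≃ₗ[F] V) (x : X → Bool), f (fun v => x (g • v)) = f x)
    (d : ℕ) (hd : DepthLe d f) : Nat.card F ^ (2 * finrank F V - 3) ≤ d := by
  classical
  have hX : Fintype X := Fintype.ofFinite X
  by_contra hlt
  push Not at hlt
  obtain ⟨x₀, y₀, hxy⟩ := hne
  have hF : Fintype F := Fintype.ofFinite F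
  obtain ⟨p, hpc⟩ := CharP.exists F
  have hpp : Fact p.Prime := ⟨CharP.char_is_prime F p⟩
  have hle : ∀ x : X → Bool, f (ind (∅ : Finset X)) ≤ f x :=
    fun x => hmono (fun v => by simp [ind])
  have hge : ∀ x : X → Bool, f x ≤ f (ind univ) :=
    fun x => hmono (fun v => by simp only [ind, mem_univ, decide_true]; exact Bool.le_true _)
  have D : Data F V X π f d := by
    refine ⟨hmono, hd, ?_, hflag, hequi, fun p₀ h₀ hfl => lt_of_lt_of_le hlt (card_opp hfl)⟩
    intro g S
    rw [← hinv g (ind (g • S))]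
    congr 1
    funext v
    unfold ind
    exact decide_eq_decide.2 (Finset.smul_mem_smul_finset_iff g)
  rcases Bool.eq_false_or_eq_true (f (ind (∅ : Finset X))) with h0 | h0
  · apply hxy
    have h1 := hle x₀
    have h2 := hle y₀
    rw [h0] at h1 h2
    rw [top_le_iff.1 h1, top_le_iff.1 h2]
  · have hfin := const p D hV h0
    apply hxy
    have h1 := hge x₀
    have h2 := hge y₀
    rw [hfin] at h1 h2
    rw [le_bot_iff.1 h1, le_bot_iff.1 h2]

theorem ratio (hV : 2 ≤ finrank F V) {d : ℕ} (hd : Nat.card F ^ (2 * finrank F V - 3) ≤ d) :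
    (1 - 1 / (Nat.card F : ℝ)) ^ 2 *
      Nat.card {c : Submodule F V × Submodule F V // IsFlag c} ≤ d := by
  have hq : 1 ≤ Nat.card F := Nat.card_pos
  have h1 := card_flags (F := F) (V := V) hV
  have h2 : ((Nat.card F : ℝ) - 1) ^ 2 * Nat.card {c : Submodule F V × Submodule F V // IsFlag c} ≤
      (Nat.card F : ℝ) ^ (2 * finrank F V - 1) := by
    have h3 : (((Nat.card F - 1) ^ 2 *
        Nat.card {c : Submodule F V × Submodule F V // IsFlag c} : ℕ) : ℝ) ≤
        ((Nat.card F ^ (2 * finrank F V - 1) : ℕ) : ℝ) := by exact_mod_cast h1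
    push_cast [Nat.cast_sub hq] at h3
    exact h3
  have hq0 : (0 : ℝ) < Nat.card F := by exact_mod_cast hq
  have h4 : (1 - 1 / (Nat.card F : ℝ)) = ((Nat.card F : ℝ) - 1) / Nat.card F := by
    field_simp
  have h5 : ((Nat.card F : ℝ)) ^ (2 * finrank F V - 3) ≤ d := by exact_mod_cast hd
  rw [h4, div_pow, div_mul_eq_mul_div, div_le_iff₀ (by positivity)]
  refine h2.trans ?_
  have h6 : 2 * finrank F V - 1 = (2 * finrank F V - 3) + 2 := by omega
  rw [h6, pow_add]
  exact mul_le_mul_of_nonneg_right h5 (by positivity)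

end Pool.Agent.U737.FL
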