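import Mathlib

/-!
# The unipotent group of an incident point-hyperplane pair
-/

set_option autoImplicit false

namespace Pool.Agent.U737.FL

variable {F V : Type} [Field F] [AddCommGroup V] [Module F V]

/-- The group of the `g` which are the identity on `A`, on `B / A` and on `V / B`. -/
def Uni (A B : Submodule F V) : Subgroup (V ≃ₗ[F] V) where
  carrier := {g | (∀ v, g v - v ∈ B) ∧ (∀ v ∈ B, g v - v ∈ A) ∧ ∀ v ∈ A, g v = v}
  mul_mem' := by
    rintro g h ⟨g1, g2, g3⟩ ⟨h1, h2, h3⟩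
    refine ⟨fun v => ?_, fun v hv => ?_, fun v hv => ?_⟩
    · have : (g * h) v - v = (g (h v) - h v) + (h v - v) := by
        rw [LinearEquiv.mul_apply]
        abel
      rw [this]
      exact B.add_mem (g1 _) (h1 _)
    · have : (g * h) v - v = (g (h v) - h v) + (h v - v) := by
        rw [LinearEquiv.mul_apply]
        abel
      rw [this]
      have h4 : h v ∈ B := by
        have := B.add_mem (h1 v) hv
        rwa [sub_add_cancel] at this
      exact A.add_mem (g2 _ h4) (h2 _ hv)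
    · rw [LinearEquiv.mul_apply, h3 v hv, g3 v hv]
  one_mem' := ⟨fun v => by simp, fun v _ => by simp, fun v _ => rfl⟩
  inv_mem' := by
    rintro g ⟨g1, g2, g3⟩
    have key : ∀ v, g (g⁻¹ v) = v := fun v => by
      rw [← LinearEquiv.mul_apply, mul_inv_cancel]
      rfl
    have h1 : ∀ v, g⁻¹ v - v ∈ B := by
      intro v
      have := B.neg_mem (g1 (g⁻¹ v))
      rwa [key, neg_sub] at this
    refine ⟨h1, fun v hv => ?_, fun v hv => ?_⟩
    · have h2 : g⁻¹ v ∈ B := by
        have := B.add_mem (h1 v) hv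
        rwa [sub_add_cancel] at this
      have := A.neg_mem (g2 _ h2)
      rwa [key, neg_sub] at this
    · have h2 := g3 v hv
      have h3 : g⁻¹ (g v) = v := by
        rw [← LinearEquiv.mul_apply, inv_mul_cancel]
        rfl
      rw [h2] at h3
      exact h3

theorem mem_uni {A B : Submodule F V} {g : V ≃ₗ[F] V} : g ∈ Uni A B ↔
    (∀ v, g v - v ∈ B) ∧ (∀ v ∈ B, g v - v ∈ A) ∧ ∀ v ∈ A, g v = v := Iff.rfl

/-- It is a `p`-group. -/
theorem uni_pgroup (p : ℕ) [Fact p.Prime] [CharP F p] (A B : Submodule F V) :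
    IsPGroup p (Uni A B) := by
  rintro ⟨g, hg⟩
  refine ⟨2, Subtype.ext ?_⟩
  show g ^ (p ^ 2) = 1
  rcases subsingleton_or_nontrivial V with hV | hV
  · exact LinearEquiv.ext fun v => Subsingleton.elim _ _
  obtain ⟨g1, g2, g3⟩ := hg
  have hch : CharP (Module.End F V) p :=
    charP_of_injective_algebraMap (algebraMap F (Module.End F V)).injective p
  obtain ⟨N, hN⟩ : ∃ N : Module.End F V, N = (g : V →ₗ[F] V) - 1 := ⟨_, rfl⟩
  have hNv : ∀ v, N v = g v - v := fun v => by rw [hN]; rfl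
  have hN3 : N ^ 3 = 0 := by
    refine LinearMap.ext fun v => ?_
    have h1 : (N ^ 3) v = N (N (N v)) := rfl
    rw [h1]
    have h2 : N v ∈ B := by rw [hNv]; exact g1 v
    have h3 : N (N v) ∈ A := by rw [hNv (N v)]; exact g2 _ h2
    rw [hNv (N (N v)), g3 _ h3, sub_self]
    rfl
  have hp2 : 3 ≤ p ^ 2 := by
    have := (Fact.out : p.Prime).two_le
    nlinarith
  have hN2 : N ^ (p ^ 2) = 0 := by
    obtain ⟨k, hk⟩ := Nat.exists_eq_add_of_le hp2
    rw [hk, pow_add, hN3, zero_mul]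
  have h1 : ((1 : Module.End F V) + N) ^ (p ^ 2) = 1 ^ (p ^ 2) + N ^ (p ^ 2) :=
    add_pow_char_pow_of_commute p 2 (Commute.one_left N)
  rw [hN2, one_pow, add_zero] at h1
  have h2 : (1 : Module.End F V) + N = (g : V →ₗ[F] V) := by rw [hN]; abel
  rw [h2] at h1
  have h3 : LinearEquiv.automorphismGroup.toLinearMapMonoidHom (g ^ (p ^ 2)) =
      ((g : V →ₗ[F] V) : Module.End F V) ^ (p ^ 2) := by
    rw [map_pow]
    rfl
  rw [h1] at h3
  refine LinearEquiv.ext fun v => ?_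
  exact LinearMap.congr_fun h3 v

/-- It preserves the subspaces between `A` and `B`. -/
theorem uni_map [FiniteDimensional F V] {A B W : Submodule F V} (h1 : A ≤ W) (h2 : W ≤ B)
    {g : V ≃ₗ[F] V} (hg : g ∈ Uni A B) : W.map (g : V →ₗ[F] V) = W := by
  apply Submodule.eq_of_le_of_finrank_eq
  · rintro _ ⟨w, hw, rfl⟩
    have h3 := W.add_mem (h1 (hg.2.1 w (h2 hw))) hw
    rwa [sub_add_cancel] at h3
  · exact LinearEquiv.finrank_map_eq g W

/-- Linear forms with a given kernel. -/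
theorem exists_func [FiniteDimensional F V] {H : Submodule F V}
    (hH : Module.finrank F H + 1 = Module.finrank F V) {x : V} (hx : x ∉ H) :
    ∃ φ : V →ₗ[F] F, LinearMap.ker φ = H ∧ φ x = 1 := by
  obtain ⟨ℓ, h1, h2⟩ := Submodule.exists_le_ker_of_notMem hx
  refine ⟨(ℓ x)⁻¹ • ℓ, ?_, ?_⟩
  · have h3 : H ≤ LinearMap.ker ((ℓ x)⁻¹ • ℓ) := by
      intro v hv
      have h4 : ℓ v = 0 := h2 hv
      rw [LinearMap.mem_ker, LinearMap.smul_apply, h4, smul_zero]
    symm
    apply Submodule.eq_of_le_of_finrank_le h3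
    have h5 : LinearMap.ker ((ℓ x)⁻¹ • ℓ) < ⊤ := by
      rw [lt_top_iff_ne_top]
      intro h6
      have h7 : x ∈ LinearMap.ker ((ℓ x)⁻¹ • ℓ) := h6 ▸ Submodule.mem_top
      rw [LinearMap.mem_ker, LinearMap.smul_apply, smul_eq_mul, inv_mul_cancel₀ h1] at h7
      exact one_ne_zero h7
    have h6 := Submodule.finrank_lt h5.ne
    omega
  · rw [LinearMap.smul_apply, smul_eq_mul, inv_mul_cancel₀ h1]

theorem point_eq [FiniteDimensional F V] {p : Submodule F V} (hp : Module.finrank F p = 1) {x : V}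
    (hx : x ∈ p) (hx0 : x ≠ 0) : p = F ∙ x := by
  symm
  apply Submodule.eq_of_le_of_finrank_eq
  · exact (Submodule.span_singleton_le_iff_mem _ _).2 hx
  · rw [hp, finrank_span_singleton hx0]

/-- The flag `(p, h)` is opposite to the flag `(p₀, h₀)`. -/
def Opp (p₀ h₀ p h : Submodule F V) : Prop := ¬ p ≤ h₀ ∧ ¬ p₀ ≤ h

/-- The unipotent group is transitive on the opposite flags. -/
theorem uni_trans [FiniteDimensional F V] {p₀ h₀ p h p' h' : Submodule F V}
    (hp₀ : Module.finrank F p₀ = 1) (hh₀ : Module.finrank F h₀ + 1 = Module.finrank F V)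
    (hle₀ : p₀ ≤ h₀) (hp : Module.finrank F p = 1)
    (hh : Module.finrank F h + 1 = Module.finrank F V) (hle : p ≤ h)
    (hp' : Module.finrank F p' = 1) (hh' : Module.finrank F h' + 1 = Module.finrank F V)
    (hle' : p' ≤ h') (ho : Opp p₀ h₀ p h) (ho' : Opp p₀ h₀ p' h') :
    ∃ g ∈ Uni p₀ h₀, p.map (g : V →ₗ[F] V) = p' ∧ h.map (g : V →ₗ[F] V) = h' := by
  obtain ⟨x, hx, hxh⟩ := Set.not_subset.1 ho.1
  obtain ⟨φ, hφ, hφx⟩ := exists_func hh₀ hxh
  obtain ⟨y, hy, hyh⟩ := Set.not_subset.1 ho'.1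
  have hφy : φ y ≠ 0 := fun h0 => hyh (hφ ▸ h0 : y ∈ h₀)
  obtain ⟨x', hx'⟩ : ∃ x', x' = (φ y)⁻¹ • y := ⟨_, rfl⟩
  have hx'p : x' ∈ p' := hx' ▸ p'.smul_mem _ hy
  have hφx' : φ x' = 1 := by rw [hx', map_smul, smul_eq_mul, inv_mul_cancel₀ hφy]
  obtain ⟨e, he, heh⟩ := Set.not_subset.1 ho.2
  obtain ⟨ψ, hψ, hψe⟩ := exists_func hh heh
  have he0 : e ≠ 0 := by
    rintro rfl
    exact heh h.zero_mem
  have hpe := point_eq hp₀ he he0
  have heh' : e ∉ h' := by
    intro h1
    apply ho'.2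
    rw [hpe, Submodule.span_singleton_le_iff_mem]
    exact h1
  obtain ⟨ψ', hψ', hψe'⟩ := exists_func hh' heh'
  have hφe : φ e = 0 := by
    have : e ∈ LinearMap.ker φ := hφ ▸ hle₀ he
    exact this
  have hψx : ψ x = 0 := by
    have : x ∈ LinearMap.ker ψ := hψ ▸ hle hx
    exact this
  have hψx' : ψ' x' = 0 := by
    have : x' ∈ LinearMap.ker ψ' := hψ' ▸ hle' hx'p
    exact this
  obtain ⟨c, hc⟩ : ∃ c : V →ₗ[F] F, c = ψ' - ψ - (ψ' x) • φ := ⟨_, rfl⟩
  have hcv : ∀ v, c v = ψ' v - ψ v - ψ' x * φ v := fun v => by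
    rw [hc]
    rfl
  obtain ⟨T, hT⟩ : ∃ T : V →ₗ[F] V, T = LinearMap.id + φ.smulRight (x' - x) - c.smulRight e :=
    ⟨_, rfl⟩
  have hTv : ∀ v, T v = v + φ v • (x' - x) - c v • e := fun v => by
    rw [hT]
    rfl
  have hφT : ∀ v, φ (T v) = φ v := by
    intro v
    rw [hTv, map_sub, map_add, map_smul, map_smul, map_sub, hφx, hφx', hφe]
    simp
  have hψT : ∀ v, ψ' (T v) = ψ v := by
    intro v
    rw [hTv, map_sub, map_add, map_smul, map_smul, map_sub, hψx', hψe', hcv]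
    simp only [smul_eq_mul]
    ring
  have hinj : Function.Injective T := by
    rw [← LinearMap.ker_eq_bot, LinearMap.ker_eq_bot']
    intro v hv
    have h1 : φ v = 0 := by rw [← hφT, hv, map_zero]
    have h2 : ψ v = 0 := by rw [← hψT, hv, map_zero]
    have h3 := hTv v
    rw [hv, hcv, h1, h2] at h3
    simp only [zero_smul, add_zero, mul_zero, sub_zero] at h3
    have h4 : v = ψ' v • e := (sub_eq_zero.1 h3.symm)
    have h5 : ψ v = ψ' v := by
      conv_lhs => rw [h4]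
      rw [map_smul, hψe, smul_eq_mul, mul_one]
    rw [h4, ← h5, h2, zero_smul]
  obtain ⟨g, hg⟩ : ∃ g : V ≃ₗ[F] V, g = LinearEquiv.ofInjectiveEndo T hinj := ⟨_, rfl⟩
  have hgT : (g : V →ₗ[F] V) = T := by
    rw [hg]
    exact DFunLike.coe_injective (LinearEquiv.coe_ofInjectiveEndo T hinj)
  have hgv : ∀ v, g v = T v := fun v => LinearMap.congr_fun hgT v
  have hmem : ∀ v, φ v = 0 → v ∈ h₀ := fun v hv => by
    have : v ∈ LinearMap.ker φ := hv
    rwa [hφ] at this
  refine ⟨g, ⟨fun v => ?_, fun v hv => ?_, fun v hv => ?_⟩, ?_, ?_⟩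
  · apply hmem
    rw [map_sub, hgv, hφT, sub_self]
  · have h1 : φ v = 0 := by
      have : v ∈ LinearMap.ker φ := hφ ▸ hv
      exact this
    rw [hgv, hTv, h1, zero_smul, add_zero]
    have h2 : v - c v • e - v = -(c v • e) := by abel
    rw [h2]
    exact p₀.neg_mem (p₀.smul_mem _ he)
  · rw [hpe] at hv
    obtain ⟨a, rfl⟩ := Submodule.mem_span_singleton.1 hv
    rw [hgv, hTv, map_smul, hφe, hcv, map_smul, map_smul, map_smul, hφe, hψe, hψe']
    simp
  · rw [hgT]
    have hx0 : x ≠ 0 := by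
      rintro rfl
      exact hxh h₀.zero_mem
    have hx'0 : x' ≠ 0 := by
      rintro rfl
      rw [map_zero] at hφx'
      exact zero_ne_one hφx'
    rw [point_eq hp hx hx0, point_eq hp' hx'p hx'0, Submodule.map_span, Set.image_singleton,
      hTv, hφx, hcv, hψx, hφx]
    congr 2
    simp
  · apply Submodule.eq_of_le_of_finrank_eq
    · rintro _ ⟨v, hv, rfl⟩
      rw [hgT]
      have h1 : ψ v = 0 := by
        have : v ∈ LinearMap.ker ψ := hψ ▸ hv
        exact this
      have h2 : T v ∈ LinearMap.ker ψ' := by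
        rw [LinearMap.mem_ker, hψT, h1]
      rwa [hψ'] at h2
    · rw [LinearEquiv.finrank_map_eq]
      omega

end Pool.Agent.U737.FL
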