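import Pool.Agent.U737.FL.Null

/-!
# The main induction for point-hyperplane flags
-/

set_option autoImplicit false

namespace Pool.Agent.U737.FL

open Finset
open Module (finrank)
open Pool.Agent.R570.PS

variable {F V : Type} [Field F] [AddCommGroup V] [Module F V] [FiniteDimensional F V]

/-- A larger subspace and a hyperplane which separate. -/
theorem exists_up {T : Submodule F V} (hT : finrank F T < finrank F V) :
    ∃ T' H : Submodule F V, T ≤ T' ∧ finrank F T' = finrank F T + 1 ∧ T ≤ H ∧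
      finrank F H + 1 = finrank F V ∧ ∀ v ∈ T', v ∈ H → v ∈ T := by
  have h1 : T < ⊤ := by
    rw [lt_top_iff_ne_top]
    rintro rfl
    rw [finrank_top] at hT
    exact lt_irrefl _ hT
  obtain ⟨y, -, hy⟩ := SetLike.exists_of_lt h1
  obtain ⟨ℓ, h2, h3⟩ := Submodule.exists_le_ker_of_notMem hy
  have hsep : ∀ v ∈ T ⊔ (F ∙ y), v ∈ LinearMap.ker ℓ → v ∈ T := by
    intro v hv hvl
    obtain ⟨t, ht, z, hz, rfl⟩ := Submodule.mem_sup.1 hv
    obtain ⟨a, rfl⟩ := Submodule.mem_span_singleton.1 hz
    have h4 : ℓ t = 0 := h3 ht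
    have h5 : ℓ (t + a • y) = 0 := hvl
    rw [map_add, h4, zero_add, map_smul, smul_eq_mul] at h5
    rcases mul_eq_zero.1 h5 with h6 | h6
    · rw [h6, zero_smul, add_zero]
      exact ht
    · exact absurd h6 h2
  have hy0 : y ≠ 0 := by
    rintro rfl
    exact hy T.zero_mem
  have hinf : T ⊓ (F ∙ y) = ⊥ := by
    rw [eq_bot_iff]
    rintro v ⟨hv1, hv2⟩
    obtain ⟨a, rfl⟩ := Submodule.mem_span_singleton.1 hv2
    have h5 : ℓ (a • y) = 0 := h3 hv1
    rw [map_smul, smul_eq_mul] at h5
    rcases mul_eq_zero.1 h5 with h6 | h6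
    · rw [h6, zero_smul]
      exact Submodule.zero_mem _
    · exact absurd h6 h2
  have hfin := Submodule.finrank_sup_add_finrank_inf_eq T (F ∙ y)
  rw [hinf, finrank_bot, finrank_span_singleton hy0] at hfin
  have hker : finrank F (LinearMap.ker ℓ) + 1 = finrank F V := by
    have h4 := LinearMap.finrank_range_add_finrank_ker ℓ
    have h5 : LinearMap.range ℓ = ⊤ := by
      rw [LinearMap.range_eq_top]
      exact LinearMap.surjective (fun h0 => h2 (by rw [h0]; rfl))
    rw [h5, finrank_top, Module.finrank_self] at h4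
    omega
  exact ⟨T ⊔ (F ∙ y), LinearMap.ker ℓ, le_sup_left, by omega, h3, hker, hsep⟩

/-- A smaller subspace and a point which generate. -/
theorem exists_down {R : Submodule F V} {k : ℕ} (hR : finrank F R = k + 1) :
    ∃ R' p₀ : Submodule F V, R' ≤ R ∧ finrank F R' = k ∧ p₀ ≤ R ∧ finrank F p₀ = 1 ∧
      R ≤ R' ⊔ p₀ := by
  have h0 : R ≠ ⊥ := by
    rintro rfl
    rw [finrank_bot] at hR
    omega
  obtain ⟨y, hy, hy0⟩ := Submodule.exists_mem_ne_zero_of_ne_bot h0
  have hy' : y ∉ (⊥ : Submodule F V) := by rwa [Submodule.mem_bot]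
  obtain ⟨ℓ, h2, -⟩ := Submodule.exists_le_ker_of_notMem hy'
  have hle : R ≤ (R ⊓ LinearMap.ker ℓ) ⊔ (F ∙ y) := by
    intro r hr
    have h3 : r = (r - (ℓ r / ℓ y) • y) + (ℓ r / ℓ y) • y := by abel
    rw [h3]
    refine Submodule.add_mem_sup ⟨R.sub_mem hr (R.smul_mem _ hy), ?_⟩
      (Submodule.smul_mem _ _ (Submodule.mem_span_singleton_self y))
    show ℓ _ = 0
    rw [map_sub, map_smul, smul_eq_mul, div_mul_cancel₀ _ h2, sub_self]
  have hyR : (F ∙ y) ≤ R := (Submodule.span_singleton_le_iff_mem _ _).2 hy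
  have h4 : (R ⊓ LinearMap.ker ℓ) ⊓ (F ∙ y) = ⊥ := by
    rw [eq_bot_iff]
    rintro v ⟨⟨_, hv⟩, hv2⟩
    obtain ⟨a, rfl⟩ := Submodule.mem_span_singleton.1 hv2
    have h3 : ℓ (a • y) = 0 := hv
    rw [map_smul, smul_eq_mul, mul_eq_zero] at h3
    rcases h3 with h3 | h3
    · simp [h3]
    · exact absurd h3 h2
  have h5 := Submodule.finrank_sup_add_finrank_inf_eq (R ⊓ LinearMap.ker ℓ) (F ∙ y)
  rw [h4, finrank_bot, finrank_span_singleton hy0, le_antisymm (sup_le inf_le_left hyR) hle,
    hR] at h5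
  exact ⟨R ⊓ LinearMap.ker ℓ, F ∙ y, inf_le_left, by omega, hyR, finrank_span_singleton hy0, hle⟩

variable [Finite F] {X : Type} [Fintype X] [DecidableEq X] [MulAction (V ≃ₗ[F] V) X]
  {π : X → Submodule F V × Submodule F V} {f : (X → Bool) → Bool} {d : ℕ}

/-- The first sweep. -/
theorem tsweep (p : ℕ) [Fact p.Prime] [CharP F p] (D : Data F V X π f d) {p₀ S : Submodule F V}
    (hp₀ : finrank F p₀ = 1) (h1 : p₀ ≤ S) {A : Submodule F V → Submodule F V → Prop}
    (hA : ∀ H : Submodule F V, finrank F H + 1 = finrank F V → S ≤ H → Inva p₀ H A)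
    (hN : Null π f A) : ∀ (k : ℕ) (T : Submodule F V), finrank F T + 1 + k = finrank F V →
    S ≤ T → Null π f (fun p h => A p h ∨ (¬ p ≤ T ∧ ¬ p₀ ≤ h)) := by
  intro k
  induction k with
  | zero =>
    intro T hT hST
    exact rule p D ⟨hp₀, hT, h1.trans hST⟩ (hA T hT hST) hN
  | succ k ih =>
    intro T hT hST
    obtain ⟨T', H, h2, h3, h4, h5, h6⟩ := exists_up (T := T) (by omega)
    have h7 := ih T' (by omega) (hST.trans h2)
    have h8 : Null π f (fun p h => A p h ∨ ((p ≤ H ∧ ¬ p ≤ T) ∧ ¬ p₀ ≤ h)) := by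
      refine h7.mono fun x hx => ?_
      rcases hx with hx | ⟨⟨hx1, hx2⟩, hx3⟩
      · exact Or.inl hx
      · exact Or.inr ⟨fun hx4 => hx2 fun v hv => h6 v (hx4 hv) (hx1 hv), hx3⟩
    have h9 : p₀ ≤ H := (h1.trans hST).trans h4
    have h10 : Inva p₀ H (fun p h => A p h ∨ ((p ≤ H ∧ ¬ p ≤ T) ∧ ¬ p₀ ≤ h)) :=
      (hA H h5 (hST.trans h4)).or (((inva_left h9 le_rfl).and
        (inva_left (h1.trans hST) h4).not).and (inva_right le_rfl h9).not)
    have h11 := rule p D ⟨hp₀, h5, h9⟩ h10 h8
    refine h11.mono fun x hx => ?_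
    rcases hx with hx | ⟨hx1, hx2⟩
    · exact Or.inl (Or.inl hx)
    · by_cases hx3 : (π x).1 ≤ H
      · exact Or.inl (Or.inr ⟨⟨hx3, hx1⟩, hx2⟩)
      · exact Or.inr ⟨hx3, hx2⟩

/-- The second sweep. -/
theorem csweep (p : ℕ) [Fact p.Prime] [CharP F p] (D : Data F V X π f d) {S : Submodule F V}
    (hS : finrank F S < finrank F V) {A : Submodule F V → Submodule F V → Prop}
    (hA : ∀ p₀ H : Submodule F V, finrank F p₀ = 1 → finrank F H + 1 = finrank F V →
      p₀ ≤ S → S ≤ H → Inva p₀ H A)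
    (hN : Null π f A) : ∀ (k : ℕ) (R : Submodule F V), finrank F R = k → R ≤ S →
    Null π f (fun p h => A p h ∨ (¬ p ≤ S ∧ ¬ R ≤ h)) := by
  intro k
  induction k with
  | zero =>
    intro R hR hRS
    have h1 : R = ⊥ := Submodule.finrank_eq_zero.1 hR
    refine hN.mono fun x hx => ?_
    rcases hx with hx | ⟨hx1, hx2⟩
    · exact hx
    · exact absurd (h1 ▸ bot_le) hx2
  | succ k ih =>
    intro R hR hRS
    obtain ⟨R', p₀, h1, h2, h3, h4, h5⟩ := exists_down hR
    have h6 := ih R' h2 (h1.trans hRS)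
    have h7 : Null π f (fun p h => A p h ∨ ((¬ p ≤ S ∧ p₀ ≤ h) ∧ ¬ R ≤ h)) := by
      refine h6.mono fun x hx => ?_
      rcases hx with hx | ⟨⟨hx1, hx2⟩, hx3⟩
      · exact Or.inl hx
      · exact Or.inr ⟨hx1, fun hx4 => hx3 (h5.trans (sup_le hx4 hx2))⟩
    obtain ⟨j, hj⟩ := Nat.exists_eq_add_of_le (Nat.succ_le_of_lt hS)
    have h8 := tsweep p D h4 (h3.trans hRS) (fun H hH hSH =>
      (hA p₀ H h4 hH (h3.trans hRS) hSH).or
        (((inva_left (h3.trans hRS) hSH).not.and
          (inva_right le_rfl ((h3.trans hRS).trans hSH))).and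
          (inva_right h3 (hRS.trans hSH)).not)) h7 j S hj.symm le_rfl
    refine h8.mono fun x hx => ?_
    rcases hx with hx | ⟨hx1, hx2⟩
    · exact Or.inl (Or.inl hx)
    · by_cases hx3 : p₀ ≤ (π x).2
      · exact Or.inl (Or.inr ⟨⟨hx1, hx3⟩, hx2⟩)
      · exact Or.inr ⟨hx1, hx3⟩

/-- The sweep for predicates which only depend on `p ≤ S` and `S ≤ h`. -/
theorem sweepS (p : ℕ) [Fact p.Prime] [CharP F p] (D : Data F V X π f d) {S : Submodule F V}
    (hS : finrank F S < finrank F V) (Q : Prop → Prop → Prop)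
    (hN : Null π f (fun p h => Q (p ≤ S) (S ≤ h))) :
    Null π f (fun p h => Q (p ≤ S) (S ≤ h) ∨ (¬ p ≤ S ∧ ¬ S ≤ h)) := by
  refine csweep p D hS (fun p₀ H _ _ h1 h2 => ?_) hN _ S rfl le_rfl
  intro g hg p h
  have e1 : (p.map (g : V →ₗ[F] V) ≤ S) = (p ≤ S) := propext (inva_left h1 h2 g hg p h)
  have e2 : (S ≤ h.map (g : V →ₗ[F] V)) = (S ≤ h) := propext (inva_right h1 h2 g hg p h)
  show Q _ _ ↔ Q _ _
  rw [e1, e2]

/-- The main induction. -/
theorem main (p : ℕ) [Fact p.Prime] [CharP F p] (D : Data F V X π f d)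
    (h0 : f (ind ∅) = false) : ∀ k : ℕ, k + 2 ≤ finrank F V →
    (∀ S : Submodule F V, finrank F S = k + 1 → Null π f (fun p h => p ≤ S ∨ ¬ S ≤ h)) ∧
    ∀ T : Submodule F V, finrank F T + (k + 1) = finrank F V →
      Null π f (fun p h => T ≤ h ∨ ¬ p ≤ T) := by
  have hbot : Null π f (fun _ _ => False) := by
    intro S hS
    have : S = ∅ := eq_empty_of_forall_notMem fun x hx => hS x hx
    rw [this, h0]
  have hbase : ∀ S : Submodule F V, finrank F S < finrank F V →
      Null π f (fun p h => ¬ p ≤ S ∧ ¬ S ≤ h) := by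
    intro S hS
    exact (sweepS p D hS (fun _ _ => False) hbot).mono fun x hx => Or.inr hx
  have hlt : ∀ x, finrank F (π x).2 < finrank F V := fun x => by
    have := (D.flag x).2.1
    omega
  have hcompl : ∀ S T : Submodule F V, IsCompl S T →
      (∀ x, (π x).1 ≤ S → ¬ (π x).1 ≤ T) ∧ ∀ x, T ≤ (π x).2 → ¬ S ≤ (π x).2 := by
    intro S T h
    constructor
    · intro x h1 h2
      have h3 : (π x).1 ≤ ⊥ := h.inf_eq_bot ▸ le_inf h1 h2
      have h4 := (D.flag x).1
      rw [le_bot_iff.1 h3, finrank_bot] at h4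
      omega
    · intro x h1 h2
      have h3 : ⊤ ≤ (π x).2 := h.sup_eq_top ▸ sup_le h2 h1
      have h4 := hlt x
      rw [top_le_iff.1 h3, finrank_top] at h4
      exact lt_irrefl _ h4
  -- it suffices to know the sets `p ≤ S` and `T ≤ h`
  have hred1 : ∀ S : Submodule F V, finrank F S < finrank F V → Null π f (fun p _ => p ≤ S) →
      Null π f (fun p h => p ≤ S ∨ ¬ S ≤ h) := by
    intro S hS hN
    refine (sweepS p D hS (fun a _ => a) hN).mono fun x hx => ?_
    by_cases h1 : (π x).1 ≤ S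
    · exact Or.inl h1
    · exact Or.inr ⟨h1, hx.resolve_left h1⟩
  have hred2 : ∀ T : Submodule F V, finrank F T < finrank F V → Null π f (fun _ h => T ≤ h) →
      Null π f (fun p h => T ≤ h ∨ ¬ p ≤ T) := by
    intro T hT hN
    refine (sweepS p D hT (fun _ b => b) hN).mono fun x hx => ?_
    by_cases h1 : T ≤ (π x).2
    · exact Or.inl h1
    · exact Or.inr ⟨hx.resolve_left h1, h1⟩
  intro k
  induction k with
  | zero =>
    intro hk
    constructor
    · intro S hS
      apply hred1 S (by omega)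
      obtain ⟨T, hT⟩ := Submodule.exists_isCompl S
      have h1 := Submodule.finrank_add_eq_of_isCompl hT
      refine (hbase T (by omega)).mono fun x hx => ?_
      have h2 := (hcompl S T hT).1 x hx
      refine ⟨h2, fun h3 => h2 ?_⟩
      have h4 : T = (π x).2 := by
        apply Submodule.eq_of_le_of_finrank_eq h3
        have := (D.flag x).2.1
        omega
      rw [h4]
      exact (D.flag x).2.2
    · intro T hT
      apply hred2 T (by omega)
      obtain ⟨S, hS⟩ := Submodule.exists_isCompl T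
      have h1 := Submodule.finrank_add_eq_of_isCompl hS
      refine (hbase S (by omega)).mono fun x hx => ?_
      have h2 := (hcompl S T hS.symm).2 x hx
      refine ⟨fun h3 => h2 ?_, h2⟩
      have h4 : (π x).1 = S := by
        apply Submodule.eq_of_le_of_finrank_eq h3
        have := (D.flag x).1
        omega
      rw [← h4]
      exact (D.flag x).2.2
  | succ k ih =>
    intro hk
    obtain ⟨ih1, ih2⟩ := ih (by omega)
    -- the sets `¬ S ≤ h` and `¬ p ≤ T`
    have hS1 : ∀ S : Submodule F V, finrank F S = k + 1 + 1 →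
        Null π f (fun _ h => ¬ S ≤ h) := by
      intro S hS
      obtain ⟨S', -, h1, h2, -, -, -⟩ := exists_down hS
      have h3 : Null π f (fun p h => p ≤ S ∧ ¬ S ≤ h) := by
        refine (ih1 S' h2).mono fun x hx => ?_
        by_cases h4 : S' ≤ (π x).2
        · left
          have h5 : S ⊓ (π x).2 < S := by
            refine lt_of_le_of_ne inf_le_left fun h6 => hx.2 ?_
            rw [← h6]
            exact inf_le_right
          have h6 := Submodule.finrank_lt_finrank_of_lt h5
          have h7 : S' = S ⊓ (π x).2 := by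
            apply Submodule.eq_of_le_of_finrank_le (le_inf h1 h4)
            omega
          rw [h7]
          exact le_inf hx.1 (D.flag x).2.2
        · exact Or.inr h4
      refine (sweepS p D (by omega) (fun a b => a ∧ ¬ b) h3).mono fun x hx => ?_
      by_cases h4 : (π x).1 ≤ S
      · exact Or.inl ⟨h4, hx⟩
      · exact Or.inr ⟨h4, hx⟩
    have hT1 : ∀ T : Submodule F V, finrank F T + (k + 1 + 1) = finrank F V →
        Null π f (fun p _ => ¬ p ≤ T) := by
      intro T hT
      obtain ⟨T', -, h1, h2, -, -, -⟩ := exists_up (T := T) (by omega)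
      have h3 : Null π f (fun p h => ¬ p ≤ T ∧ T ≤ h) := by
        refine (ih2 T' (by omega)).mono fun x hx => ?_
        by_cases h4 : (π x).1 ≤ T'
        · left
          have h5 : T < T ⊔ (π x).1 := by
            refine lt_of_le_of_ne le_sup_left fun h6 => hx.1 ?_
            rw [h6]
            exact le_sup_right
          have h6 := Submodule.finrank_lt_finrank_of_lt h5
          have h7 : T ⊔ (π x).1 = T' := by
            apply Submodule.eq_of_le_of_finrank_le (sup_le h1 h4)
            omega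
          rw [← h7]
          exact sup_le hx.2 (D.flag x).2.2
        · exact Or.inr h4
      refine (sweepS p D (by omega) (fun a b => ¬ a ∧ b) h3).mono fun x hx => ?_
      by_cases h4 : T ≤ (π x).2
      · exact Or.inl ⟨hx, h4⟩
      · exact Or.inr ⟨hx, h4⟩
    constructor
    · intro S hS
      apply hred1 S (by omega)
      obtain ⟨T, hT⟩ := Submodule.exists_isCompl S
      have h1 := Submodule.finrank_add_eq_of_isCompl hT
      exact (hT1 T (by omega)).mono fun x hx => (hcompl S T hT).1 x hx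
    · intro T hT
      apply hred2 T (by omega)
      obtain ⟨S, hS⟩ := Submodule.exists_isCompl T
      have h1 := Submodule.finrank_add_eq_of_isCompl hS
      exact (hS1 S (by omega)).mono fun x hx => (hcompl S T hS.symm).2 x hx

/-- A function with the data is constant. -/
theorem const (p : ℕ) [Fact p.Prime] [CharP F p] (D : Data F V X π f d)
    (hV : 2 ≤ finrank F V) (h0 : f (ind ∅) = false) : f (ind univ) = false := by
  obtain ⟨k, hk⟩ := Nat.exists_eq_add_of_le hV
  have h1 := (main p D h0 k (by omega)).1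
  rcases isEmpty_or_nonempty X with hX | ⟨⟨x₀⟩⟩
  · rw [univ_eq_empty, h0]
  refine h1 (π x₀).2 ?_ univ fun x _ => ?_
  · have := (D.flag x₀).2.1
    omega
  · by_cases h2 : (π x₀).2 ≤ (π x).2
    · left
      have h3 : (π x₀).2 = (π x).2 := by
        apply Submodule.eq_of_le_of_finrank_eq h2
        have h4 := (D.flag x₀).2.1
        have h5 := (D.flag x).2.1
        omega
      rw [h3]
      exact (D.flag x).2.2
    · exact Or.inr h2

end Pool.Agent.U737.FL
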