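import Pool.Agent.U737.FL.Lin
import Pool.Agent.R570.PS.RV

/-!
# Null sets of flags
-/

set_option autoImplicit false

namespace Pool.Agent.U737.FL

open Finset
open scoped Pointwise
open Pool.Agent.R570.PS

variable {F V : Type} [Field F] [AddCommGroup V] [Module F V]

/-- The incident pairs of a point and a hyperplane. -/
def IsFlag (c : Submodule F V × Submodule F V) : Prop :=
  Module.finrank F c.1 = 1 ∧ Module.finrank F c.2 + 1 = Module.finrank F V ∧ c.1 ≤ c.2

/-- `A` does not change under the unipotent group of `(p₀, h₀)`. -/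
def Inva (p₀ h₀ : Submodule F V) (A : Submodule F V → Submodule F V → Prop) : Prop :=
  ∀ g ∈ Uni p₀ h₀, ∀ p h, A (p.map (g : V →ₗ[F] V)) (h.map (g : V →ₗ[F] V)) ↔ A p h

section Inva

variable [FiniteDimensional F V] {p₀ h₀ : Submodule F V}
  {A B : Submodule F V → Submodule F V → Prop}

omit [FiniteDimensional F V] in
theorem Inva.and (hA : Inva p₀ h₀ A) (hB : Inva p₀ h₀ B) : Inva p₀ h₀ fun p h => A p h ∧ B p h :=
  fun g hg p h => and_congr (hA g hg p h) (hB g hg p h)

omit [FiniteDimensional F V] in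
theorem Inva.or (hA : Inva p₀ h₀ A) (hB : Inva p₀ h₀ B) : Inva p₀ h₀ fun p h => A p h ∨ B p h :=
  fun g hg p h => or_congr (hA g hg p h) (hB g hg p h)

omit [FiniteDimensional F V] in
theorem Inva.not (hA : Inva p₀ h₀ A) : Inva p₀ h₀ fun p h => ¬ A p h :=
  fun g hg p h => not_congr (hA g hg p h)

omit [FiniteDimensional F V] in
theorem inva_false : Inva p₀ h₀ fun _ _ => False := fun _ _ _ _ => Iff.rfl

theorem inva_left {W : Submodule F V} (h1 : p₀ ≤ W) (h2 : W ≤ h₀) :
    Inva p₀ h₀ fun p _ => p ≤ W := by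
  intro g hg p h
  show p.map (g : V →ₗ[F] V) ≤ W ↔ p ≤ W
  conv_lhs => rw [← uni_map h1 h2 hg]
  exact Submodule.map_le_map_iff_of_injective g.injective p W

theorem inva_right {W : Submodule F V} (h1 : p₀ ≤ W) (h2 : W ≤ h₀) :
    Inva p₀ h₀ fun _ h => W ≤ h := by
  intro g hg p h
  show W ≤ h.map (g : V →ₗ[F] V) ↔ W ≤ h
  conv_lhs => rw [← uni_map h1 h2 hg]
  exact Submodule.map_le_map_iff_of_injective g.injective W h

theorem inva_opp (h : p₀ ≤ h₀) : Inva p₀ h₀ (Opp p₀ h₀) :=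
  (inva_left h le_rfl).not.and (inva_right le_rfl h).not

end Inva

variable {X : Type} [Fintype X] [DecidableEq X] [MulAction (V ≃ₗ[F] V) X]

/-- `f` is zero on all sets of variables over `A`. -/
def Null (π : X → Submodule F V × Submodule F V) (f : (X → Bool) → Bool)
    (A : Submodule F V → Submodule F V → Prop) : Prop :=
  ∀ S : Finset X, (∀ x ∈ S, A (π x).1 (π x).2) → f (ind S) = false

/-- The data of the theorem. -/
structure Data (F V : Type) [Field F] [AddCommGroup V] [Module F V] (X : Type) [Fintype X]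
    [DecidableEq X] [MulAction (V ≃ₗ[F] V) X] (π : X → Submodule F V × Submodule F V)
    (f : (X → Bool) → Bool) (d : ℕ) : Prop where
  mono : Monotone f
  depth : DepthLe d f
  inv : ∀ (g : V ≃ₗ[F] V) (S : Finset X), f (ind (g • S)) = f (ind S)
  flag : ∀ x, IsFlag (π x)
  equi : ∀ (g : V ≃ₗ[F] V) x,
    π (g • x) = ((π x).1.map (g : V →ₗ[F] V), (π x).2.map (g : V →ₗ[F] V))
  big : ∀ p₀ h₀ : Submodule F V, IsFlag (p₀, h₀) →
    d < Nat.card {c : Submodule F V × Submodule F V // IsFlag c ∧ Opp p₀ h₀ c.1 c.2}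

variable {π : X → Submodule F V × Submodule F V} {f : (X → Bool) → Bool} {d : ℕ}

omit [Fintype X] [MulAction (V ≃ₗ[F] V) X] in
theorem Null.mono {A B : Submodule F V → Submodule F V → Prop} (hB : Null π f B)
    (h : ∀ x, A (π x).1 (π x).2 → B (π x).1 (π x).2) : Null π f A :=
  fun S hS => hB S fun x hx => h x (hS x hx)

/-- The main rule: the flags opposite to a given flag may be added. -/
theorem rule [Finite F] [FiniteDimensional F V] (p : ℕ) [Fact p.Prime] [CharP F p]
    (D : Data F V X π f d) {p₀ h₀ : Submodule F V} (hfl : IsFlag (p₀, h₀))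
    {A : Submodule F V → Submodule F V → Prop} (hA : Inva p₀ h₀ A) (hN : Null π f A) :
    Null π f (fun p h => A p h ∨ Opp p₀ h₀ p h) := by
  classical
  have hVf : Finite V := Module.finite_of_finite F
  have hSub : Finite (Submodule F V) :=
    Finite.of_injective (fun W : Submodule F V => (W : Set V)) SetLike.coe_injective
  have hGf : Finite (V ≃ₗ[F] V) :=
    Finite.of_injective (fun g : V ≃ₗ[F] V => (g : V → V)) DFunLike.coe_injective
  intro S hS
  obtain ⟨Y, hY⟩ : ∃ Y : Finset X, Y = univ.filter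
    (fun x => A (π x).1 (π x).2 ∧ ¬ Opp p₀ h₀ (π x).1 (π x).2) := ⟨_, rfl⟩
  obtain ⟨O, hO⟩ : ∃ O : Finset X, O = univ.filter
    (fun x => Opp p₀ h₀ (π x).1 (π x).2) := ⟨_, rfl⟩
  have hmemY : ∀ x, x ∈ Y ↔ A (π x).1 (π x).2 ∧ ¬ Opp p₀ h₀ (π x).1 (π x).2 := fun x => by
    rw [hY, mem_filter]
    exact ⟨fun h => h.2, fun h => ⟨mem_univ _, h⟩⟩
  have hmemO : ∀ x, x ∈ O ↔ Opp p₀ h₀ (π x).1 (π x).2 := fun x => by
    rw [hO, mem_filter]
    exact ⟨fun h => h.2, fun h => ⟨mem_univ _, h⟩⟩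
  have hYf : f (ind Y) = false := hN Y fun x hx => ((hmemY x).1 hx).1
  have hinv : ∀ (g : Uni p₀ h₀) (S : Finset X), f (ind (g • S)) = f (ind S) :=
    fun g S => D.inv g.1 S
  have hopp := inva_opp (p₀ := p₀) (h₀ := h₀) hfl.2.2
  have h2 := rv' p (uni_pgroup p p₀ h₀) D.depth hinv O.card Y O le_rfl (by
      rw [disjoint_left]
      intro x hx hx'
      exact ((hmemY x).1 hx).2 ((hmemO x).1 hx')) (by
      intro g x hx
      rw [hmemY] at hx ⊢
      have h3 : π (g • x) = _ := D.equi g.1 x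
      rw [h3]
      exact ⟨(hA g.1 g.2 _ _).2 hx.1, fun h4 => hx.2 ((hopp g.1 g.2 _ _).1 h4)⟩) (by
      intro g x hx
      rw [hmemO] at hx ⊢
      have h3 : π (g • x) = _ := D.equi g.1 x
      rw [h3]
      exact (hopp g.1 g.2 _ _).2 hx) (by
      intro S hSO hne hSi
      obtain ⟨x, hx⟩ := hne
      have hxo : Opp p₀ h₀ (π x).1 (π x).2 := (hmemO x).1 (hSO hx)
      refine lt_of_lt_of_le (D.big p₀ h₀ hfl) ?_
      have h3 : {c : Submodule F V × Submodule F V | IsFlag c ∧ Opp p₀ h₀ c.1 c.2} ⊆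
          ((S.image π : Finset (Submodule F V × Submodule F V)) :
            Set (Submodule F V × Submodule F V)) := by
        rintro ⟨p', h'⟩ ⟨hc, hco⟩
        obtain ⟨g, hg, hg1, hg2⟩ := uni_trans hfl.1 hfl.2.1 hfl.2.2 (D.flag x).1 (D.flag x).2.1
          (D.flag x).2.2 hc.1 hc.2.1 hc.2.2 hxo hco
        rw [mem_coe, mem_image]
        refine ⟨g • x, hSi ⟨g, hg⟩ x hx, ?_⟩
        rw [D.equi, hg1, hg2]
      have h4 := Set.ncard_le_ncard h3 (Finset.finite_toSet _)
      rw [Set.ncard_coe_finset] at h4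
      exact h4.trans card_image_le)
  have h5 : f (ind S) ≤ f (ind (Y ∪ O)) := by
    apply D.mono
    apply ind_mono
    intro x hx
    rw [mem_union, hmemY, hmemO]
    rcases hS x hx with h6 | h6
    · by_cases h7 : Opp p₀ h₀ (π x).1 (π x).2
      · exact Or.inr h7
      · exact Or.inl ⟨h6, h7⟩
    · exact Or.inr h6
  rw [h2, hYf] at h5
  exact le_bot_iff.1 h5

end Pool.Agent.U737.FL
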